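import Pool.Agent.Lib.MP_29d677_an.Main

/-!
Almost sure `W^{1,2}_{loc}` convergence for random polynomial maps of complex 2-space.
-/

namespace Pool.Agent.Results.MP_29d677_an.W12Convergence

open MeasureTheory ProbabilityTheory Filter Pool.Agent.Lib.MP_29d677_an

theorem result
    (K : Set (Fin 2 → ℂ)) (hK : IsCompact K) (Q : (Fin 2 → ℂ) → ℝ) (hQ : ContinuousOn Q K)
    (hV : ∃ z, Vstar K Q z ≠ ⊤)
    (τ : Measure (Fin 2 → ℂ)) [IsProbabilityMeasure τ] (hτ : τ Kᶜ = 0)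
    (M : ℕ → ℝ) (hM : limsup (fun n : ℕ => M n ^ (1 / (n : ℝ))) atTop = 1)
    (hBM : ∀ n : ℕ, 1 ≤ n → ∀ q : MvPolynomial (Fin 2) ℂ, q.totalDegree ≤ n → ∀ x ∈ K,
      ‖MvPolynomial.eval x q‖ * Real.exp (-(n * Q x))
        ≤ M n * √(∫ y in K, ‖MvPolynomial.eval y q‖ ^ 2 * Real.exp (-(2 * n * Q y)) ∂τ))
    (p : ℕ → ℕ × ℕ → MvPolynomial (Fin 2) ℂ)
    (hdeg : ∀ n, 1 ≤ n → ∀ ν ∈ idx n, (p n ν).totalDegree ≤ n)
    (hspan : ∀ n, 1 ≤ n → ∀ q : MvPolynomial (Fin 2) ℂ, q.totalDegree ≤ n →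
      q ∈ Submodule.span ℂ (p n '' idx n))
    (horth : ∀ n : ℕ, 1 ≤ n → ∀ ν ∈ idx n, ∀ μ ∈ idx n,
      ∫ y in K, MvPolynomial.eval y (p n ν) * (starRingEnd ℂ) (MvPolynomial.eval y (p n μ))
        * (Real.exp (-(2 * n * Q y)) : ℂ) ∂τ = if ν = μ then 1 else 0)
    (φ : ℂ → ℝ) (hφ0 : ∀ w, 0 ≤ φ w) (hφi : Integrable φ) (hφ1 : ∫ w, φ w = 1)
    (T : ℝ) (hφT : ∀ w, |φ w| ≤ T)
    (htail : ∃ R₀ : ℝ, ∀ R, R₀ ≤ R → |∫ w in {w : ℂ | R ≤ ‖w‖}, φ w| ≤ T / R ^ 2)
    {Ω : Type*} [MeasurableSpace Ω] (P : Measure Ω) [IsProbabilityMeasure P]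
    (a : ℕ → Fin 2 → ℕ × ℕ → Ω → ℂ)
    (hind : ∀ n, 1 ≤ n → iIndepFun (fun x : Fin 2 × idx n => a n x.1 x.2) P)
    (hlaw : ∀ n, 1 ≤ n → ∀ j, ∀ ν ∈ idx n,
      HasLaw (a n j ν) (volume.withDensity fun w => ENNReal.ofReal (φ w)) P) :
    ∃ V : (Fin 2 → ℂ) → ℝ, (∀ z, (V z : EReal) = Vstar K Q z) ∧
      ∀ᵐ ω ∂P, TendstoW12loc
        (fun n z => 1 / (n : ℝ) * Real.log
          √(‖∑ ν ∈ idx n, a n 0 ν ω * MvPolynomial.eval z (p n ν)‖ ^ 2
            + ‖∑ ν ∈ idx n, a n 1 ν ω * MvPolynomial.eval z (p n ν)‖ ^ 2)) V := by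
  have h00 : idx 0 = {(0, 0)} := by decide
  obtain ⟨d, rfl, rfl, hs, hp⟩ := exists_data hK hQ hV τ hM hBM
    (fun n => if n = 0 then fun _ => 1 else p n)
    (fun n ν hν => by
      rcases Nat.eq_zero_or_pos n with rfl | hn
      · simp
      · simpa [hn.ne'] using hdeg n hn ν hν)
    (fun n q hq => by
      rcases Nat.eq_zero_or_pos n with rfl | hn
      · rw [MvPolynomial.totalDegree_eq_zero_iff_eq_C.1 (Nat.le_zero.1 hq), h00,
          MvPolynomial.C_eq_smul_one]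
        exact Submodule.smul_mem _ _ (Submodule.subset_span (by simp))
      · simpa [hn.ne'] using hspan n hn q hq)
    (fun n ν hν μ hμ => by
      rcases Nat.eq_zero_or_pos n with rfl | hn
      · rw [h00, Finset.mem_singleton] at hν hμ
        have : τ.real K = 1 := by
          rw [measureReal_def, (prob_compl_eq_zero_iff hK.measurableSet).1 hτ]; rfl
        simp [hν, hμ, this]
      · simpa only [hn.ne', if_false] using horth n hn ν hν μ hμ)
  have hof : ∀ S : Set ℂ, MeasurableSet S → (volume.withDensity fun w => ENNReal.ofReal (φ w)) S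
      = ENNReal.ofReal (∫ w in S, φ w) := fun S hS => by
    rw [withDensity_apply _ hS, ofReal_integral_eq_lintegral_ofReal hφi.integrableOn
      (Eventually.of_forall hφ0)]
  have : IsProbabilityMeasure (volume.withDensity fun w => ENNReal.ofReal (φ w)) :=
    ⟨by rw [hof _ MeasurableSet.univ, setIntegral_univ, hφ1, ENNReal.ofReal_one]⟩
  obtain ⟨R₀, hR₀⟩ := htail
  have key := d.prob_main (fun n => hs ▸ card_idx n)
    (volume.withDensity fun w => ENNReal.ofReal (φ w)) (T := T) (R0 := R₀)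
    (by
      rw [← withDensity_const]
      exact withDensity_mono (Eventually.of_forall fun w =>
        ENNReal.ofReal_le_ofReal ((le_abs_self _).trans (hφT w))))
    (fun R hR => by
      rw [hof _ (measurableSet_le measurable_const measurable_norm)]
      exact ENNReal.ofReal_le_ofReal ((le_abs_self _).trans (hR₀ R hR)))
    a (hs ▸ hind) (hs ▸ hlaw)
  refine ⟨_, d.Vstar_real, key.mono fun ω hω => ?_⟩
  convert hω using 3 with n z
  rcases Nat.eq_zero_or_pos n with rfl | hn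
  · simp [Data.u]
  · rw [Real.log_sqrt (by positivity)]
    simp only [Data.u, Data.S, SS, Fin.sum_univ_two, Data.H, Data.P, hs, hp, hn.ne', if_false]
    ring

end Pool.Agent.Results.MP_29d677_an.W12Convergence
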